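import Pool.Agent.Y862.SQ.Stm3
import Pool.Agent.Y872.SQ.AvgZ

/-!
# Project SQ, job SQ3-AVG: average of the singular series over families, `n` a unit

Adapted from `Pool/Agent/Y872/SQ/AvgZ.lean` of helper872.
-/

set_option autoImplicit false

namespace Pool.Agent.Y547.SQ

open Finset Filter Pool.Agent.Y862.SQ Pool.Agent.Y872.SQ

/-- the exponent of the tail -/
def KK (K : ℕ) : ℕ := (1 + 4 * (K + 1)) ^ ((K + 1) ^ 2) - 1

/-- third error -/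
theorem err_three {α : Type} [DecidableEq α] (B : Finset α) (K : ℕ) (F D : α → ℝ) (T b : ℝ)
    (hT : 0 ≤ T) (hb : 0 ≤ b) (hF : ∀ h, 0 ≤ F h) (hD : ∀ z, 0 ≤ D z)
    (h1 : ∑ g ∈ B, F g * D g ≤ T * b) (h2 : ∑ g ∈ B, F g ≤ T) :
    ∑ U ∈ powersetCard K B, (∏ h ∈ U, F h) * ∑ g ∈ U, D g ≤ T ^ K * b := by
  rcases K with _ | K
  · rw [powersetCard_zero, sum_singleton, sum_empty, mul_zero]
    positivity
  · have e1 : ∀ U ∈ powersetCard (K + 1) B, (∏ h ∈ U, F h) * ∑ g ∈ U, D g =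
        ∑ g ∈ U, (F g * D g) * ∏ h ∈ U.erase g, F h := by
      intro U _
      rw [mul_sum]
      refine sum_congr rfl fun g hg => ?_
      rw [← mul_prod_erase U F hg]
      ring
    rw [sum_congr rfl e1]
    refine (sum_one B K (fun g => F g * D g) F (fun g => mul_nonneg (hF g) (hD g)) hF).trans ?_
    have h3 : (∑ g ∈ B, F g) ^ K ≤ T ^ K :=
      pow_le_pow_left₀ (sum_nonneg fun g _ => hF g) h2 K
    calc _ ≤ (T * b) * T ^ K :=
          mul_le_mul h1 h3 (pow_nonneg (sum_nonneg fun g _ => hF g) K) (by positivity)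
      _ = _ := by ring

theorem DR_sq (K w : ℕ) (g g' : ℕ × ℤ) :
    (DR K w g g' - 1) ^ 2 ≤ DR (2 * K + K ^ 2) w g g' - 1 := by
  have h1 := DR_ge K w g g'
  have h2 : DR K w g g' ^ 2 ≤ DR (2 * K + K ^ 2) w g g' := by
    unfold DR
    rw [← prod_pow]
    refine prod_le_prod (fun p _ => sq_nonneg _) fun p hp => ?_
    have hp1 : (1 : ℝ) ≤ p := by
      have := (Nat.prime_of_mem_primeFactors (mem_filter.1 hp).1).one_lt.le
      exact_mod_cast this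
    have hp0 : (0 : ℝ) < p := by linarith
    have h3 : (K : ℝ) ^ 2 / (p : ℝ) ^ 2 ≤ (K : ℝ) ^ 2 / p := by
      apply div_le_div_of_nonneg_left (by positivity) hp0
      nlinarith
    have h4 : (1 + (K : ℝ) / p) ^ 2 = 1 + 2 * K / p + (K : ℝ) ^ 2 / (p : ℝ) ^ 2 := by
      rw [add_sq, div_pow]
      ring
    have h5 : 1 + ((2 * K + K ^ 2 : ℕ) : ℝ) / p = 1 + 2 * K / p + (K : ℝ) ^ 2 / p := by
      push_cast
      rw [add_div]
      ring
    rw [h4, h5]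
    linarith
  nlinarith

theorem Fz_zero (w y : ℕ) : Fz w y 0 = 1 := by
  unfold Fz
  apply prod_eq_one
  intro p hp
  have hp1 := (Pool.Agent.Y61.SQ.mem_pr.1 (mem_filter.1 hp).1).1.one_lt
  unfold lez
  rw [neg_zero, jacobiSym.zero_left hp1]
  simp

theorem g0_notMem {k M : ℕ} {a : Fin k → ℕ} {c : Fin k → ℤ} {L r : Fin k → ℕ} (hW : Win M a c L)
    {H : Fin k → Finset (ℕ × ℤ)} (hH : H ∈ fam a c L r) : ((0, 0) : ℕ × ℤ) ∉ un H := by
  intro h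
  have h4 := un_sub hW hH h
  rw [mem_product, mem_Zs] at h4
  apply h4.2.2
  exact ⟨0, by simp⟩

theorem sum_offDiag_insert {α : Type} [DecidableEq α] (U : Finset α) (a : α) (ha : a ∉ U)
    (D : α × α → ℝ) (hs : ∀ g g', D (g, g') = D (g', g)) :
    ∑ z ∈ (insert a U).offDiag, D z = ∑ z ∈ U.offDiag, D z + 2 * ∑ g ∈ U, D (a, g) := by
  rw [sum_offd, sum_insert ha, erase_insert ha]
  have h1 : ∀ g ∈ U, ∑ g' ∈ (insert a U).erase g, D (g, g') =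
      D (a, g) + ∑ g' ∈ U.erase g, D (g, g') := by
    intro g hg
    have hag : a ≠ g := fun h => ha (h ▸ hg)
    rw [erase_insert_of_ne hag, sum_insert (fun h => ha (mem_of_mem_erase h)), hs]
  rw [sum_congr rfl h1, sum_add_distrib, ← sum_offd]
  ring

set_option maxHeartbeats 4000000 in
theorem coreQ (k K M w y : ℕ) (x C C₀ : ℝ) (hM : 1 ≤ M) (hw : 4 * (K + 1) + 2 ≤ w)
    (hwy : w ≤ y) (hx0' : 0 < x) (hx1 : x ≤ 1) (hC0 : 0 ≤ C) (hC00 : 0 ≤ C₀)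
    (hxw' : (w : ℝ)⁻¹ ≤ x ^ 2)
    (ht1 : 4 * ((K : ℝ) + 1) ^ 2 / w ≤ 1) (h3 : S_TAILZ)
    (hFM : ∑ s ∈ Icc (-(M : ℤ)) M, (Fz w y s - 1) ^ 2 ≤ M * x ^ 2)
    (hCO : ∀ (g : ℕ × ℤ) (a' : ℕ), g.1 ≤ M → a' ≤ M → |g.2| ≤ M → ¬ IsSquare (-g.2) →
      ∑ s ∈ (Zs M).filter (fun s => (a', s) ≠ g),
        (DR (KK K) w g (a', s) - 1) ≤ C * (M : ℝ) / w)
    (hCO0 : ∀ a' ≤ M, ∑ s ∈ Zs M,
        (DR (2 * KK K + KK K ^ 2) w (0, 0) (a', s) - 1) ≤ C₀ * (M : ℝ) / w)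
    (a : Fin k → ℕ) (c : Fin k → ℤ) (L r : Fin k → ℕ) (hW : Win M a c L) (hr : ∑ j, r j = K) :
    |∑ H ∈ fam a c L r, VP (insert (0, 0) (un H)) y -
      V1t w y ^ (K + 1) * ∑ H ∈ fam a c L r, VP (insert (0, 0) (un H)) w| ≤
      V1t w y ^ (K + 1) * ((6 * k * M) ^ K *
        ((4 * ((K : ℝ) + 1) ^ 2 + 3 + 2 * C + 2 * C₀) * x)) := by
  have hx0 : 0 ≤ x := hx0'.le
  have hxw : (w : ℝ)⁻¹ ≤ x := by
    refine hxw'.trans ?_
    nlinarith
  have hM1 : (1 : ℝ) ≤ M := by exact_mod_cast hM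
  have hw1 : (1 : ℝ) ≤ w := by exact_mod_cast (by omega : 1 ≤ w)
  have hwpos : (0 : ℝ) < w := by linarith
  have hk0 : (0 : ℝ) ≤ k := Nat.cast_nonneg k
  obtain ⟨B, hB⟩ : ∃ B : Finset (ℕ × ℤ), B = (univ.image a) ×ˢ Zs M := ⟨_, rfl⟩
  obtain ⟨T, hT⟩ : ∃ T : ℝ, T = 6 * k * M := ⟨_, rfl⟩
  have hT0 : 0 ≤ T := by rw [hT]; positivity
  have hG : ∑ s ∈ Icc (-(M : ℤ)) M, |Fz w y s - 1| ≤ 2 * M * x := by
    apply le_of_sq_le_sq _ (by positivity)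
    have e1 := sq_sum_le_card_mul_sum_sq (s := Icc (-(M : ℤ)) M) (f := fun s => |Fz w y s - 1|)
    simp only [sq_abs] at e1
    rw [card_Icc_int] at e1
    calc _ ≤ (2 * (M : ℝ) + 1) * ∑ s ∈ Icc (-(M : ℤ)) M, (Fz w y s - 1) ^ 2 := e1
      _ ≤ (2 * (M : ℝ) + 1) * (M * x ^ 2) := by gcongr
      _ ≤ (4 * (M : ℝ)) * (M * x ^ 2) := by
          refine mul_le_mul_of_nonneg_right (by linarith) (by positivity)
      _ = _ := by ring
  have hf1 : ∑ g ∈ B, |Fz w y g.2 - 1| ≤ T * x := by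
    rw [hB]
    refine (sum_B a (fun s => |Fz w y s - 1|) (fun s => abs_nonneg _)).trans ?_
    refine (mul_le_mul_of_nonneg_left hG hk0).trans ?_
    rw [hT]
    have : 0 ≤ (k : ℝ) * M * x := by positivity
    nlinarith
  have hBc : (B.card : ℝ) ≤ 3 * k * M := by
    have e1 := sum_B (M := M) a (fun _ => (1 : ℝ)) (fun _ => zero_le_one)
    rw [← hB] at e1
    simp only [sum_const, nsmul_eq_mul, mul_one] at e1
    rw [card_Icc_int] at e1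
    refine e1.trans ?_
    have : (k : ℝ) * (2 * M + 1) ≤ k * (3 * M) := mul_le_mul_of_nonneg_left (by linarith) hk0
    linarith
  have hBT : (B.card : ℝ) ≤ T := by
    rw [hT]
    have : 0 ≤ (k : ℝ) * M := by positivity
    linarith
  have hf2 : ∑ g ∈ B, (1 + |Fz w y g.2 - 1|) ≤ T := by
    rw [sum_add_distrib]
    simp only [sum_const, nsmul_eq_mul, mul_one]
    have e2 : ∑ g ∈ B, |Fz w y g.2 - 1| ≤ 2 * k * M := by
      rw [hB]
      refine (sum_B a (fun s => |Fz w y s - 1|) (fun s => abs_nonneg _)).trans ?_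
      refine (mul_le_mul_of_nonneg_left hG hk0).trans ?_
      have : (k : ℝ) * (2 * M * x) = 2 * k * M * x := by ring
      rw [this]
      exact mul_le_of_le_one_right (by positivity) hx1
    have : 0 ≤ (k : ℝ) * M := by positivity
    rw [hT]
    linarith
  have hF1 : ∑ g ∈ B, Fz w y g.2 ≤ T := by
    refine le_trans (sum_le_sum fun g _ => ?_) hf2
    linarith [le_abs_self (Fz w y g.2 - 1)]
  have hF2 : ∑ g ∈ B, Fz w y g.2 ^ 2 ≤ 2 * T := by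
    rw [hB]
    refine (sum_B a (fun s => Fz w y s ^ 2) (fun s => sq_nonneg _)).trans ?_
    have e1 : ∑ s ∈ Icc (-(M : ℤ)) M, Fz w y s ^ 2 ≤
        ∑ s ∈ Icc (-(M : ℤ)) M, (2 * (Fz w y s - 1) ^ 2 + 2) :=
      sum_le_sum fun s _ => Pool.Agent.Y61.SQ.sq_le_two _
    rw [sum_add_distrib, ← mul_sum] at e1
    simp only [sum_const, nsmul_eq_mul] at e1
    rw [card_Icc_int] at e1
    have e2 : (M : ℝ) * x ^ 2 ≤ M := mul_le_of_le_one_right (by positivity) (pow_le_one₀ hx0 hx1)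
    have e3 : ∑ s ∈ Icc (-(M : ℤ)) M, Fz w y s ^ 2 ≤ 12 * M := by linarith
    refine (mul_le_mul_of_nonneg_left e3 hk0).trans ?_
    rw [hT]
    linarith
  obtain ⟨D, hD⟩ : ∃ D : (ℕ × ℤ) × (ℕ × ℤ) → ℝ,
    D = fun z => DR (KK K) w z.1 z.2 - 1 := ⟨_, rfl⟩
  have hD0 : ∀ z, 0 ≤ D z := by intro z; rw [hD]; exact DR_ge _ _ _ _
  have hDs : ∀ g g', D (g, g') = D (g', g) := by
    intro g g'
    rw [hD]
    simp only
    rw [DR_comm]
  have hDb : ∀ g ∈ B, ∑ g' ∈ B.erase g, D (g, g') ≤ T * (C / w) := by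
    intro g hg
    rw [hB, mem_product, mem_image, mem_Zs] at hg
    obtain ⟨⟨j, -, hj⟩, ⟨hg1, hg2⟩, hg3⟩ := hg
    have e0 : g.1 ≤ M := by rw [← hj]; exact (hW.1 j).1
    have e1 : ∑ g' ∈ B.erase g, D (g, g') =
        ∑ a' ∈ univ.image a, ∑ s ∈ (Zs M).filter (fun s => (a', s) ≠ g), D (g, (a', s)) := by
      rw [← filter_ne', hB, sum_filter, sum_product]
      refine sum_congr rfl fun a' _ => ?_
      rw [← sum_filter]
    rw [e1]
    have e2 : ∀ a' ∈ univ.image a,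
        ∑ s ∈ (Zs M).filter (fun s => (a', s) ≠ g), D (g, (a', s)) ≤ C * (M : ℝ) / w := by
      intro a' ha'
      rw [mem_image] at ha'
      obtain ⟨i, -, hi⟩ := ha'
      have := hCO g a' e0 (by rw [← hi]; exact (hW.1 i).1) (abs_le.2 ⟨hg1, hg2⟩) hg3
      rw [hD]
      exact this
    refine (sum_le_sum e2).trans ?_
    simp only [sum_const, nsmul_eq_mul]
    have e3 : 0 ≤ C * (M : ℝ) / w := by positivity
    refine (mul_le_mul_of_nonneg_right (card_A a) e3).trans ?_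
    have e4 : (k : ℝ) * (C * M / w) = (k * M) * (C / w) := by ring
    rw [e4]
    refine mul_le_mul_of_nonneg_right ?_ (by positivity)
    rw [hT]
    have : 0 ≤ (k : ℝ) * M := by positivity
    linarith
  have hDq : ∑ g ∈ B, D ((0, 0), g) ^ 2 ≤ T * (C₀ / w) := by
    have e1 : ∑ g ∈ B, D ((0, 0), g) ^ 2 ≤
        ∑ g ∈ B, (DR (2 * KK K + KK K ^ 2) w (0, 0) g - 1) := by
      refine sum_le_sum fun g _ => ?_
      rw [hD]
      exact DR_sq _ _ _ _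
    refine e1.trans ?_
    rw [hB, sum_product]
    have e2 : ∀ a' ∈ univ.image a,
        ∑ s ∈ Zs M, (DR (2 * KK K + KK K ^ 2) w (0, 0) (a', s) - 1) ≤ C₀ * (M : ℝ) / w := by
      intro a' ha'
      rw [mem_image] at ha'
      obtain ⟨i, -, hi⟩ := ha'
      exact hCO0 a' (by rw [← hi]; exact (hW.1 i).1)
    refine (sum_le_sum e2).trans ?_
    simp only [sum_const, nsmul_eq_mul]
    have e3 : 0 ≤ C₀ * (M : ℝ) / w := by positivity
    refine (mul_le_mul_of_nonneg_right (card_A a) e3).trans ?_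
    have e4 : (k : ℝ) * (C₀ * M / w) = (k * M) * (C₀ / w) := by ring
    rw [e4]
    refine mul_le_mul_of_nonneg_right ?_ (by positivity)
    rw [hT]
    have : 0 ≤ (k : ℝ) * M := by positivity
    linarith
  obtain ⟨F, hF⟩ : ∃ F : ℕ × ℤ → ℝ, F = fun g => Fz w y g.2 := ⟨_, rfl⟩
  have hF0 : ∀ g, 0 ≤ F g := by intro g; rw [hF]; exact Fz_nonneg w y g.2
  have hF1' : ∑ g ∈ B, F g ≤ T := by rw [hF]; exact hF1
  have hF2' : ∑ g ∈ B, F g ^ 2 ≤ 2 * T := by rw [hF]; exact hF2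
  have hFD : ∑ g ∈ B, F g * D ((0, 0), g) ≤ T * ((1 + C₀) * x) := by
    have e1 : ∀ g ∈ B, F g * D ((0, 0), g) ≤
        (1 / 2) * x * F g ^ 2 + (1 / 2) * x⁻¹ * D ((0, 0), g) ^ 2 := by
      intro g _
      have f1 := mul_nonneg (inv_nonneg.2 hx0) (sq_nonneg (x * F g - D ((0, 0), g)))
      have f2 : x⁻¹ * (x * F g - D ((0, 0), g)) ^ 2 =
          x * F g ^ 2 - 2 * (F g * D ((0, 0), g)) + x⁻¹ * D ((0, 0), g) ^ 2 := by
        field_simp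
        ring
      linarith
    refine (sum_le_sum e1).trans ?_
    rw [sum_add_distrib, ← mul_sum, ← mul_sum]
    have e2 : (1 / 2) * x * ∑ g ∈ B, F g ^ 2 ≤ (1 / 2) * x * (2 * T) :=
      mul_le_mul_of_nonneg_left hF2' (by positivity)
    have e3 : (1 / 2) * x⁻¹ * ∑ g ∈ B, D ((0, 0), g) ^ 2 ≤ (1 / 2) * x⁻¹ * (T * (C₀ / w)) :=
      mul_le_mul_of_nonneg_left hDq (by positivity)
    have e4 : (1 / 2) * x⁻¹ * (T * (C₀ / w)) ≤ T * C₀ * x := by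
      have f1 : (1 / 2) * x⁻¹ * (T * (C₀ / w)) = (T * C₀) * ((1 / 2) * (x⁻¹ * (w : ℝ)⁻¹)) := by
        rw [div_eq_mul_inv]
        ring
      rw [f1]
      refine mul_le_mul_of_nonneg_left ?_ (by positivity)
      have f2 : x⁻¹ * (w : ℝ)⁻¹ ≤ x⁻¹ * x ^ 2 :=
        mul_le_mul_of_nonneg_left hxw' (inv_nonneg.2 hx0)
      have f3 : x⁻¹ * x ^ 2 = x := by
        field_simp
      linarith
    have e5 : T * ((1 + C₀) * x) = T * x + T * C₀ * x := by ring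
    rw [e5]
    linarith
  have hS1 : ∑ U ∈ powersetCard K B, |∏ h ∈ U, F h - 1| ≤ T ^ K * x := by
    refine err_one B K F T x hT0 hx0 ?_ ?_
    · rw [hF]; exact hf1
    · rw [hF]; exact hf2
  have hS2 : ∑ U ∈ powersetCard K B, (∏ h ∈ U, F h) * ∑ z ∈ U.offDiag, D z ≤
      T ^ K * (2 * (C / w)) :=
    err_two B K F D T (C / w) hT0 (by positivity) hF0 hD0 hDb hDs hF1' hF2'
  have hS3 : ∑ U ∈ powersetCard K B, (∏ h ∈ U, F h) * ∑ g ∈ U, D ((0, 0), g) ≤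
      T ^ K * ((1 + C₀) * x) :=
    err_three B K F (fun g => D ((0, 0), g)) T _ hT0 (by positivity) hF0 (fun g => hD0 _) hFD hF1'
  have hS0 : ∑ U ∈ powersetCard K B, (1 : ℝ) ≤ T ^ K := by
    have e1 := esym B K (fun _ => (1 : ℝ)) (fun _ => zero_le_one)
    simp only [prod_const_one] at e1
    refine e1.trans ?_
    refine pow_le_pow_left₀ (sum_nonneg fun _ _ => zero_le_one) ?_ K
    simp only [sum_const, nsmul_eq_mul, mul_one]
    exact hBT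
  obtain ⟨A, hA⟩ : ∃ A : ℝ, A = V1t w y ^ (K + 1) := ⟨_, rfl⟩
  have hA0 : 0 < A := by rw [hA]; exact pow_pos (Pool.Agent.Y61.SQ.V1t_pos w y) (K + 1)
  obtain ⟨t, ht⟩ : ∃ t : ℝ, t = 4 * ((K : ℝ) + 1) ^ 2 / w := ⟨_, rfl⟩
  have ht0 : 0 ≤ t := by rw [ht]; positivity
  have hper : ∀ H ∈ fam a c L r, |VP (insert (0, 0) (un H)) y -
      A * VP (insert (0, 0) (un H)) w| ≤
      A * (t * 1 + |∏ h ∈ un H, F h - 1| + (∏ h ∈ un H, F h) *
        (∑ z ∈ (un H).offDiag, D z + 2 * ∑ g ∈ un H, D ((0, 0), g))) := by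
    intro H hH
    have hn := g0_notMem hW hH
    have hc : (insert ((0, 0) : ℕ × ℤ) (un H)).card = K + 1 := by
      rw [card_insert_of_notMem hn, (un_card hW hH).trans hr]
    have hsub := un_sub hW hH
    have hR : ∀ g ∈ un H, ∀ g', g ≠ g' → Rr g g' ≠ 0 := by
      intro g hg g' hne
      have h4 := hsub hg
      rw [mem_product, mem_Zs] at h4
      exact Rr_ne g g' h4.2.2 hne
    have e1 := h3 (insert ((0, 0) : ℕ × ℤ) (un H)) w y (by rw [hc]; exact hw) (by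
      intro g hg g' hg' hne
      rcases mem_insert.1 hg with h5 | h5
      · rcases mem_insert.1 hg' with h6 | h6
        · exact absurd (h5.trans h6.symm) hne
        · rw [Rr_comm]
          exact hR g' h6 g hne.symm
      · exact hR g h5 g' hne)
    rw [hc] at e1
    have e0 : 4 * ((K + 1 : ℕ) : ℝ) ^ 2 / w = t := by rw [ht]; push_cast; ring
    rw [← hA, e0] at e1
    have e2 : ∏ h ∈ insert ((0, 0) : ℕ × ℤ) (un H), Fz w y h.2 = ∏ h ∈ un H, F h := by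
      rw [prod_insert hn, Fz_zero, one_mul, hF]
    have e3 : ∑ z ∈ (insert ((0, 0) : ℕ × ℤ) (un H)).offDiag,
        (DR ((1 + 4 * (K + 1)) ^ ((K + 1) ^ 2) - 1) w z.1 z.2 - 1) =
        ∑ z ∈ (un H).offDiag, D z + 2 * ∑ g ∈ un H, D ((0, 0), g) := by
      rw [← sum_offDiag_insert (un H) (0, 0) hn D hDs, hD]
      rfl
    rw [VP_split _ hwy, mul_one]
    refine abs_core (VP_nonneg _ _) (VP_le_one _ _) hA0.le ht0 (by rw [ht]; exact ht1)
      (prod_nonneg fun h _ => hF0 h) (add_nonneg (sum_nonneg fun z _ => hD0 z)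
        (mul_nonneg zero_le_two (sum_nonneg fun z _ => hD0 _))) ?_ ?_
    · rw [← e2]
      exact e1.1
    · rw [← e2, ← e3]
      exact e1.2
  rw [← hA, ← hT]
  have hg := fam_le (r := r) hW (fun U => t * 1 + |∏ h ∈ U, F h - 1| +
    (∏ h ∈ U, F h) * (∑ z ∈ U.offDiag, D z + 2 * ∑ g ∈ U, D ((0, 0), g))) (fun U => by
      have e1 : 0 ≤ ∑ z ∈ U.offDiag, D z := sum_nonneg fun z _ => hD0 z
      have e2 : 0 ≤ ∑ g ∈ U, D ((0, 0), g) := sum_nonneg fun z _ => hD0 _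
      have : 0 ≤ (∏ h ∈ U, F h) * (∑ z ∈ U.offDiag, D z + 2 * ∑ g ∈ U, D ((0, 0), g)) :=
        mul_nonneg (prod_nonneg fun h _ => hF0 h) (by positivity)
      positivity)
  rw [hr, ← hB] at hg
  have hR : ∑ U ∈ powersetCard K B, (t * 1 + |∏ h ∈ U, F h - 1| +
      (∏ h ∈ U, F h) * (∑ z ∈ U.offDiag, D z + 2 * ∑ g ∈ U, D ((0, 0), g))) ≤
      t * T ^ K + T ^ K * x + (T ^ K * (2 * (C / w)) + 2 * (T ^ K * ((1 + C₀) * x))) := by
    have e1 : ∀ U ∈ powersetCard K B, (∏ h ∈ U, F h) *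
        (∑ z ∈ U.offDiag, D z + 2 * ∑ g ∈ U, D ((0, 0), g)) =
        (∏ h ∈ U, F h) * ∑ z ∈ U.offDiag, D z +
          2 * ((∏ h ∈ U, F h) * ∑ g ∈ U, D ((0, 0), g)) := by
      intro U _
      ring
    rw [sum_add_distrib, sum_add_distrib, ← mul_sum, sum_congr rfl e1, sum_add_distrib,
      ← mul_sum]
    have := mul_le_mul_of_nonneg_left hS0 ht0
    linarith
  have hE : t * T ^ K + T ^ K * x + (T ^ K * (2 * (C / w)) + 2 * (T ^ K * ((1 + C₀) * x))) ≤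
      T ^ K * ((4 * ((K : ℝ) + 1) ^ 2 + 3 + 2 * C + 2 * C₀) * x) := by
    have e1 : t * T ^ K + T ^ K * x + (T ^ K * (2 * (C / w)) + 2 * (T ^ K * ((1 + C₀) * x))) =
        T ^ K * ((4 * ((K : ℝ) + 1) ^ 2 + 2 * C) * (w : ℝ)⁻¹ + (3 + 2 * C₀) * x) := by
      rw [ht, div_eq_mul_inv, div_eq_mul_inv]
      ring
    rw [e1]
    refine mul_le_mul_of_nonneg_left ?_ (pow_nonneg hT0 K)
    have e2 : (4 * ((K : ℝ) + 1) ^ 2 + 2 * C) * (w : ℝ)⁻¹ ≤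
        (4 * ((K : ℝ) + 1) ^ 2 + 2 * C) * x :=
      mul_le_mul_of_nonneg_left hxw (by positivity)
    linarith
  calc |∑ H ∈ fam a c L r, VP (insert (0, 0) (un H)) y -
        A * ∑ H ∈ fam a c L r, VP (insert (0, 0) (un H)) w|
      = |∑ H ∈ fam a c L r, (VP (insert (0, 0) (un H)) y - A * VP (insert (0, 0) (un H)) w)| := by
        rw [sum_sub_distrib, ← mul_sum]
    _ ≤ ∑ H ∈ fam a c L r, |VP (insert (0, 0) (un H)) y - A * VP (insert (0, 0) (un H)) w| :=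
        abs_sum_le_sum_abs _ _
    _ ≤ ∑ H ∈ fam a c L r, A * (t * 1 + |∏ h ∈ un H, F h - 1| + (∏ h ∈ un H, F h) *
        (∑ z ∈ (un H).offDiag, D z + 2 * ∑ g ∈ un H, D ((0, 0), g))) := sum_le_sum hper
    _ = A * ∑ H ∈ fam a c L r, (t * 1 + |∏ h ∈ un H, F h - 1| + (∏ h ∈ un H, F h) *
        (∑ z ∈ (un H).offDiag, D z + 2 * ∑ g ∈ un H, D ((0, 0), g))) := by rw [mul_sum]
    _ ≤ A * (T ^ K * ((4 * ((K : ℝ) + 1) ^ 2 + 3 + 2 * C + 2 * C₀) * x)) :=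
        mul_le_mul_of_nonneg_left (hg.trans (hR.trans hE)) hA0.le

set_option maxHeartbeats 4000000 in
theorem t_AVGQ (hM : S_MERT) (h1 : S_FMZ) (h2 : S_COLLR) (h2' : S_COL0) (h3 : S_TAILZ)
    (h4 : S_SMALLQ) : S_AVGQ := by
  intro k R η hη
  obtain ⟨c, hc0, hc1, hc⟩ := Pool.Agent.Y61.SQ.V1_low hM
  obtain ⟨w0, hFM⟩ := h1
  choose Cf hCf0 hCf using fun K : ℕ => h2 (KK K)
  choose Cg hCg0 hCg using fun K : ℕ => h2' (2 * KK K + KK K ^ 2)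
  obtain ⟨N, hN⟩ : ∃ N : ℕ, N = k * R := ⟨_, rfl⟩
  obtain ⟨Af, hAf⟩ : ∃ Af : ℕ → ℝ, Af = fun K : ℕ =>
    (6 * (k : ℝ)) ^ K * (4 * ((K : ℝ) + 1) ^ 2 + 3 + 2 * Cf K + 2 * Cg K) +
      4 * ((K : ℝ) + 1) ^ 2 := ⟨_, rfl⟩
  have hAf0 : ∀ K, 0 ≤ Af K := by
    intro K
    rw [hAf]
    have := (hCf0 K).le
    have := (hCg0 K).le
    positivity
  obtain ⟨A, hA⟩ : ∃ A : ℝ, A = ∑ K ∈ range (N + 1), Af K := ⟨_, rfl⟩
  have hA0 : 0 ≤ A := by rw [hA]; exact sum_nonneg fun K _ => hAf0 K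
  have hAK : ∀ K ≤ N, Af K ≤ A := by
    intro K hK
    rw [hA]
    exact single_le_sum (f := Af) (fun K _ => hAf0 K) (mem_range.2 (by omega))
  obtain ⟨δ, hδ⟩ : ∃ δ : ℝ, δ = min η 1 / 2 := ⟨_, rfl⟩
  have hδ0 : 0 < δ := by rw [hδ]; have := lt_min hη one_pos; positivity
  have hδη : 2 * δ ≤ η := by rw [hδ]; linarith [min_le_left η 1]
  have hδ1 : 2 * δ ≤ 1 := by rw [hδ]; linarith [min_le_right η 1]
  obtain ⟨w, hw0, hw3, hwA⟩ := Pool.Agent.Y61.SQ.exists_w A hA0 (N + 1) c δ hc0 hδ0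
    (max w0 (4 * (N + 1) + 2))
  have hww0 : w0 ≤ w := (le_max_left _ _).trans hw0
  have hwK : 4 * (N + 1) + 2 ≤ w := (le_max_right _ _).trans hw0
  have hw1 : (1 : ℝ) ≤ w := by exact_mod_cast (by omega : 1 ≤ w)
  have hwpos : (0 : ℝ) < w := by linarith
  obtain ⟨x, hx⟩ : ∃ x : ℝ, x = (√(√(w : ℝ)))⁻¹ := ⟨_, rfl⟩
  have hss : 1 ≤ √(√(w : ℝ)) := by
    rw [Real.one_le_sqrt, Real.one_le_sqrt]
    exact hw1
  have hx0 : 0 < x := by rw [hx]; positivity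
  have hx1 : x ≤ 1 := by rw [hx]; exact inv_le_one_of_one_le₀ hss
  have hx2 : x ^ 2 = (√(w : ℝ))⁻¹ := by
    rw [hx, inv_pow, Real.sq_sqrt (Real.sqrt_nonneg _)]
  have hx4 : (w : ℝ)⁻¹ = x ^ 4 := by
    have : x ^ 4 = (x ^ 2) ^ 2 := by ring
    rw [this, hx2, inv_pow, Real.sq_sqrt hwpos.le]
  have hxw2 : (w : ℝ)⁻¹ ≤ x ^ 2 := by
    rw [hx4]
    exact pow_le_pow_of_le_one hx0.le hx1 (by norm_num)
  have hxw : (w : ℝ)⁻¹ ≤ x := by
    rw [hx4]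
    calc x ^ 4 ≤ x ^ 1 := pow_le_pow_of_le_one hx0.le hx1 (by norm_num)
      _ = x := pow_one x
  rw [← hx] at hwA
  have hlog1 : 1 ≤ Real.log w := by
    rw [Real.le_log_iff_exp_le hwpos]
    have : (3 : ℝ) ≤ w := by exact_mod_cast hw3
    linarith [Real.exp_one_lt_d9]
  obtain ⟨V, hV⟩ : ∃ V : ℝ, V = V1 w := ⟨_, rfl⟩
  have hVpos : 0 < V := by rw [hV]; exact Pool.Agent.Y61.SQ.V1_pos w
  have hV1 : V ≤ 1 := by rw [hV]; exact V1_le_one w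
  have hcV : (c / Real.log w) ^ (N + 1) ≤ V ^ (N + 1) := by
    rw [hV]
    exact pow_le_pow_left₀ (by positivity) (hc w hw3) (N + 1)
  have hVN : ∀ K ≤ N, V ^ (N + 1) ≤ V ^ (K + 1) := fun K hK =>
    pow_le_pow_of_le_one hVpos.le hV1 (by omega)
  have hAV : A * x ≤ δ * V ^ (N + 1) := hwA.trans (by gcongr)
  have hA1 : A * x ≤ δ := hAV.trans (mul_le_of_le_one_right hδ0.le (pow_le_one₀ hVpos.le hV1))
  obtain ⟨M1, hM1⟩ := hFM w hww0
  choose M2 hM2 using fun K : ℕ => hCf K w (by omega)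
  choose M4 hM4 using fun K : ℕ => hCg K w (by omega)
  obtain ⟨M3, hM3⟩ := h4 k R w (δ * V ^ (N + 1)) (by positivity)
  refine ⟨w, M1 + (range (N + 1)).sup M2 + M3 + (range (N + 1)).sup M4 + 1, ?_⟩
  intro M hMM y hy a b L r hW hrR
  obtain ⟨K, hK⟩ : ∃ K : ℕ, K = ∑ j, r j := ⟨_, rfl⟩
  have hKN : K ≤ N := by
    rw [hK, hN]
    calc ∑ j, r j ≤ ∑ _j : Fin k, R := sum_le_sum fun j _ => (hrR j).le
      _ = k * R := by rw [sum_const, card_univ, Fintype.card_fin, smul_eq_mul]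
  have hM2' : M2 K ≤ M := by
    have : M2 K ≤ (range (N + 1)).sup M2 := le_sup (f := M2) (mem_range.2 (by omega))
    omega
  have hM4' : M4 K ≤ M := by
    have : M4 K ≤ (range (N + 1)).sup M4 := le_sup (f := M4) (mem_range.2 (by omega))
    omega
  have hMpos : (0 : ℝ) < M := by exact_mod_cast (by omega : 0 < M)
  have hAfK : Af K = (6 * (k : ℝ)) ^ K * (4 * ((K : ℝ) + 1) ^ 2 + 3 + 2 * Cf K + 2 * Cg K) +
      4 * ((K : ℝ) + 1) ^ 2 := by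
    rw [hAf]
  have hC0 := hCf0 K
  have hC00 := hCg0 K
  have ht1 : 4 * ((K : ℝ) + 1) ^ 2 / w ≤ 1 := by
    have e1 : 4 * ((K : ℝ) + 1) ^ 2 ≤ A := by
      refine le_trans ?_ (hAK K hKN)
      rw [hAfK]
      have : 0 ≤ (6 * (k : ℝ)) ^ K * (4 * ((K : ℝ) + 1) ^ 2 + 3 + 2 * Cf K + 2 * Cg K) := by
        positivity
      linarith
    calc 4 * ((K : ℝ) + 1) ^ 2 / w = 4 * ((K : ℝ) + 1) ^ 2 * (w : ℝ)⁻¹ := div_eq_mul_inv _ _
      _ ≤ A * x := mul_le_mul e1 hxw (by positivity) hA0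
      _ ≤ 1 := by linarith
  have hcore := coreQ k K M w y x (Cf K) (Cg K) (by omega) (by omega) hy hx0 hx1 hC0.le hC00.le
    hxw2 ht1 h3
    (by
      rw [hx2, ← div_eq_mul_inv]
      exact hM1 M (by omega) y)
    (by
      intro g a' q1 q2 q3 q4
      have q5 := hM2 K M hM2' g a' q1 q2 q3 q4
      refine le_trans (le_of_eq ?_) q5
      refine sum_congr ?_ fun _ _ => rfl
      ext s
      rw [mem_filter, mem_filter, mem_Zs, mem_Icc]
      tauto)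
    (by
      intro a' q2
      have q5 := hM4 K M hM4' a' q2
      refine le_trans (le_of_eq ?_) q5
      refine sum_congr ?_ fun _ _ => rfl
      ext s
      rw [mem_filter, mem_Zs, mem_Icc])
    a b L r hW hK.symm
  have hsm := hM3 M (by omega) a b L r hW hrR
  rw [prod_V1 L r hy, ← hK]
  rw [← hK] at hsm
  obtain ⟨S, hS⟩ : ∃ S : ℝ, S = ∑ H ∈ fam a b L r, VP (insert (0, 0) (un H)) y := ⟨_, rfl⟩
  obtain ⟨S', hS'⟩ : ∃ S' : ℝ, S' = ∑ H ∈ fam a b L r, VP (insert (0, 0) (un H)) w := ⟨_, rfl⟩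
  obtain ⟨P, hP⟩ : ∃ P : ℝ, P = ∏ j, ((L j * V1 w) ^ r j / (r j).factorial) := ⟨_, rfl⟩
  obtain ⟨Q, hQ⟩ : ∃ Q : ℝ, Q = V1t w y ^ (K + 1) := ⟨_, rfl⟩
  have hQ0 : 0 < Q := by rw [hQ]; exact pow_pos (Pool.Agent.Y61.SQ.V1t_pos w y) (K + 1)
  rw [← hS, ← hS', ← hQ] at hcore
  rw [← hS', ← hP] at hsm
  rw [← hS, ← hP]
  have e0 : V1 y * (V1t w y ^ K * P) = Q * (V1 w * P) := by
    rw [Pool.Agent.Y61.SQ.V1_split hy, hQ]
    ring
  rw [e0]
  have e1 : S - Q * (V1 w * P) = (S - Q * S') + Q * (S' - V1 w * P) := by ring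
  rw [e1]
  refine (abs_add_le _ _).trans ?_
  rw [abs_mul, abs_of_pos hQ0]
  have e2 : Q * |S' - V1 w * P| ≤ Q * (δ * V ^ (N + 1) * (M : ℝ) ^ K) :=
    mul_le_mul_of_nonneg_left hsm hQ0.le
  have e3 : (6 * (k : ℝ) * M) ^ K *
      ((4 * ((K : ℝ) + 1) ^ 2 + 3 + 2 * Cf K + 2 * Cg K) * x) ≤
      (M : ℝ) ^ K * (δ * V ^ (N + 1)) := by
    have f1 : (6 * (k : ℝ)) ^ K * (4 * ((K : ℝ) + 1) ^ 2 + 3 + 2 * Cf K + 2 * Cg K) ≤ A := by
      refine le_trans ?_ (hAK K hKN)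
      rw [hAfK]
      have : 0 ≤ 4 * ((K : ℝ) + 1) ^ 2 := by positivity
      linarith
    have f2 : (6 * (k : ℝ)) ^ K * (4 * ((K : ℝ) + 1) ^ 2 + 3 + 2 * Cf K + 2 * Cg K) * x ≤
        δ * V ^ (N + 1) :=
      (mul_le_mul_of_nonneg_right f1 hx0.le).trans hAV
    calc (6 * (k : ℝ) * M) ^ K * ((4 * ((K : ℝ) + 1) ^ 2 + 3 + 2 * Cf K + 2 * Cg K) * x) =
        (M : ℝ) ^ K *
          ((6 * (k : ℝ)) ^ K * (4 * ((K : ℝ) + 1) ^ 2 + 3 + 2 * Cf K + 2 * Cg K) * x) := by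
          rw [mul_pow]
          ring
      _ ≤ _ := mul_le_mul_of_nonneg_left f2 (by positivity)
  have e4 : V ^ (N + 1) ≤ V ^ (K + 1) := hVN K hKN
  calc |S - Q * S'| + Q * |S' - V1 w * P| ≤
      Q * ((M : ℝ) ^ K * (δ * V ^ (N + 1))) + Q * (δ * V ^ (N + 1) * (M : ℝ) ^ K) :=
        add_le_add (hcore.trans (mul_le_mul_of_nonneg_left e3 hQ0.le)) e2
    _ = (2 * δ) * V ^ (N + 1) * (Q * (M : ℝ) ^ K) := by ring
    _ ≤ η * V ^ (K + 1) * (Q * (M : ℝ) ^ K) := by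
        refine mul_le_mul_of_nonneg_right ?_ (by positivity)
        exact mul_le_mul hδη e4 (by positivity) hη.le
    _ = η * (V1 y * (M * V1 y) ^ K) := by
        rw [Pool.Agent.Y61.SQ.V1_split hy, hQ, ← hV]
        ring

end Pool.Agent.Y547.SQ
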